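import Pool.Agent.H25.FreeQ2
import Pool.Agent.H25.SphB

namespace Pool.Agent.Results.MP_0be93d_co.Size
open Function Cardinal Quaternion Pool.Agent.H25.Sph

/-- The unit sphere of Euclidean 3-space. -/
abbrev S2 := Metric.sphere (0 : E3) 1

/-- The orthogonal group `O(3)`. -/
abbrev O3 := E3 ≃ₗᵢ[ℝ] E3

/-- The rotation group `SO(3)`. -/
def SO3 : Set O3 := {g | LinearMap.det g.toLinearEquiv.toLinearMap = 1}

/-- The natural action on the sphere. -/
noncomputable def act (g : O3) (x : S2) : S2 := ⟨g x, by simp⟩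

def Dist (Γ : Set O3) {k : ℕ} (c : S2 → Fin k) : Prop :=
  ∀ g ∈ Γ, (∀ x, c (act g x) = c x) → g = LinearIsometryEquiv.refl ℝ E3

/-- The distinguishing number. -/
noncomputable def D (Γ : Set O3) : ℕ := sInf {k | 1 ≤ k ∧ ∃ c : S2 → Fin k, Dist Γ c}

/-- Trivial pointwise stabiliser. -/
def Adm (Γ : Set O3) (W : Set S2) : Prop :=
  ∀ g ∈ Γ, (∀ x ∈ W, act g x = x) → g = LinearIsometryEquiv.refl ℝ E3

/-- The precolouring extension property. -/
def P (Γ : Set O3) (W : Set S2) : Prop :=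
  ∀ c : {x // x ∉ W} → Fin (D Γ), ∃ c' : S2 → Fin (D Γ),
    (∀ x (h : x ∉ W), c' x = c ⟨x, h⟩) ∧ Dist Γ c'

theorem wild {A X Z : Type} [AddCommGroup Z] [MulAction (FreeGroup A) X] (d : A → X → Z)
    (hd : ∀ a x, d a x ≠ 0 → ∀ w : FreeGroup A, w • x = x → w = 1) :
    ∃ c : X → Z, ∀ a x, c (FreeGroup.of a • x) + d a (FreeGroup.of a • x) = c x + d a x := by
  classical
  let τ : A → Equiv.Perm (X × Z) := fun f =>
    { toFun := fun p => (FreeGroup.of f • p.1, p.2 + d f p.1 - d f (FreeGroup.of f • p.1))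
      invFun := fun p => ((FreeGroup.of f)⁻¹ • p.1, p.2 + d f p.1 - d f ((FreeGroup.of f)⁻¹ • p.1))
      left_inv := fun p => by
        simp only [inv_smul_smul]
        ext1 <;> simp
      right_inv := fun p => by
        simp only [smul_inv_smul]
        ext1 <;> simp }
  let σ : FreeGroup A →* Equiv.Perm (X × Z) := FreeGroup.lift τ
  have fst : ∀ w p, (σ w p).1 = w • p.1 := by
    intro w
    induction w using FreeGroup.induction_on with
    | C1 => intro p; simp
    | of a => intro p; simp only [σ, FreeGroup.lift_apply_of]; rfl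
    | inv_of a _ => intro p; simp only [σ, map_inv, FreeGroup.lift_apply_of]; rfl
    | mul a b ha hb =>
      intro p
      rw [map_mul, Equiv.Perm.mul_apply, ha, hb, mul_smul]
  let s : Setoid X := MulAction.orbitRel (FreeGroup A) X
  let r : X → X := fun x => (Quotient.mk s x).out
  have hr : ∀ x, ∃ w : FreeGroup A, w • r x = x := fun x => s.symm (Quotient.mk_out (s := s) x)
  choose wd hwd using hr
  let fr : X → Prop := fun x => ∀ w : FreeGroup A, w • x = x → w = 1
  have frs : ∀ (v : FreeGroup A) x, fr x → fr (v • x) := by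
    intro v x h w hw
    have := h (v⁻¹ * w * v) (by rw [mul_smul, mul_smul, hw, inv_smul_smul])
    have e : w = v * (v⁻¹ * w * v) * v⁻¹ := by group
    rw [e, this, mul_one, mul_inv_cancel]
  refine ⟨fun x => if fr x then (σ (wd x) (r x, 0)).2 else 0, fun f x => ?_⟩
  by_cases hx : fr x
  · have hx2 := frs (FreeGroup.of f) x hx
    simp only [if_pos hx, if_pos hx2]
    have r1 : r (FreeGroup.of f • x) = r x := by
      have : Quotient.mk s (FreeGroup.of f • x) = Quotient.mk s x := Quotient.sound ⟨_, rfl⟩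
      simp only [r, this]
    have w1 : wd (FreeGroup.of f • x) = FreeGroup.of f * wd x := by
      have e1 := hwd (FreeGroup.of f • x)
      rw [r1] at e1
      have := hx2 (wd (FreeGroup.of f • x) * (FreeGroup.of f * wd x)⁻¹) (by
        rw [mul_smul]
        have : (FreeGroup.of f * wd x)⁻¹ • FreeGroup.of f • x = r x := by
          rw [inv_smul_eq_iff, mul_smul, hwd x]
        rw [this, e1])
      exact mul_inv_eq_one.1 this
    have e4 : (σ (wd x) (r x, 0)).1 = x := by rw [fst, hwd x]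
    have e5 : ∀ p, (σ (FreeGroup.of f) p).2 = p.2 + d f p.1 - d f (FreeGroup.of f • p.1) := by
      intro p
      simp only [σ, FreeGroup.lift_apply_of]
      rfl
    rw [w1, r1, map_mul, Equiv.Perm.mul_apply, e5, e4, sub_add_cancel]
  · have hx2 : ¬ fr (FreeGroup.of f • x) := fun h => hx (by simpa using frs (FreeGroup.of f)⁻¹ _ h)
    have d1 : d f x = 0 := by_contra fun h => hx (hd f x h)
    have d2 : d f (FreeGroup.of f • x) = 0 := by_contra fun h => hx2 (hd f _ h)
    simp only [if_neg hx, if_neg hx2, d1, d2]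

def io : E3 →ₗ[ℝ] ℍ[ℝ] where
  toFun v := ⟨0, v 0, v 1, v 2⟩
  map_add' u v := by ext <;> simp
  map_smul' t v := by ext <;> simp

noncomputable def ro : ℍ[ℝ] →ₗ[ℝ] E3 where
  toFun q := WithLp.toLp 2 ![q.imI, q.imJ, q.imK]
  map_add' u v := by ext i; fin_cases i <;> simp
  map_smul' t v := by ext i; fin_cases i <;> simp

theorem io_norm (v : E3) : ‖io v‖ = ‖v‖ := by
  have h1 : ‖io v‖ * ‖io v‖ = ‖v‖ * ‖v‖ := by
    rw [← Quaternion.normSq_eq_norm_mul_self, ← sq, EuclideanSpace.real_norm_sq_eq,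
      Quaternion.normSq_def', Fin.sum_univ_three]
    simp [io]
  exact (mul_self_inj (norm_nonneg _) (norm_nonneg _)).1 h1

theorem io_inj : Injective io := fun u v h => by
  have := io_norm (u - v)
  rw [map_sub, h, sub_self, norm_zero] at this
  exact sub_eq_zero.1 (norm_eq_zero.1 this.symm)

theorem io_ro (q : ℍ[ℝ]) (h : q.re = 0) : io (ro q) = q := by
  ext <;> simp [io, ro, h]

theorem exists_rot (u : ℍ[ℝ]ˣ) (hu : ‖(u : ℍ[ℝ])‖ = 1) :
    ∃ g : O3, ∀ v, io (g v) = u * io v * (u⁻¹ : ℍ[ℝ]ˣ) := by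
  have rc : ∀ a b : ℍ[ℝ], (a * b).re = (b * a).re := fun a b => by
    simp only [Quaternion.re_mul]
    ring
  let l : E3 →ₗ[ℝ] E3 := ro ∘ₗ LinearMap.mulRight ℝ ((u⁻¹ : ℍ[ℝ]ˣ) : ℍ[ℝ]) ∘ₗ
    LinearMap.mulLeft ℝ (u : ℍ[ℝ]) ∘ₗ io
  have hl : ∀ v, io (l v) = u * io v * (u⁻¹ : ℍ[ℝ]ˣ) := fun v => io_ro _ (by
    change ((u : ℍ[ℝ]) * io v * (u⁻¹ : ℍ[ℝ]ˣ)).re = 0
    rw [rc, Units.inv_mul_cancel_left]
    rfl)
  refine ⟨LinearIsometry.toLinearIsometryEquiv ⟨l, fun v => ?_⟩ rfl, hl⟩
  rw [← io_norm, hl, norm_mul, norm_mul, Units.val_inv_eq_inv_val, norm_inv, hu, io_norm]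
  simp

theorem sq_mem (g : O3) : g * g ∈ SO3 := by
  have h := Matrix.det_of_mem_unitary (g.toMatrix_mem_unitaryGroup
    (EuclideanSpace.basisFun (Fin 3) ℝ) (EuclideanSpace.basisFun (Fin 3) ℝ))
  rw [LinearMap.det_toMatrix] at h
  have e : (g * g).toLinearEquiv.toLinearMap =
      g.toLinearEquiv.toLinearMap ∘ₗ g.toLinearEquiv.toLinearMap := rfl
  change LinearMap.det _ = 1
  rw [e, LinearMap.det_comp]
  simpa using h.1

theorem fails (B : Type) [Infinite B] (hB : 2 ^ #B ≤ 𝔠) (k : ℕ) (hk : 1 ≤ k) :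
    ∃ W : Set S2, #W = #B ∧ Adm Set.univ W ∧ ∃ c : S2 → Fin k, ∀ c' : S2 → Fin k,
      (∀ x ∉ W, c' x = c x) → ¬ Dist SO3 c' := by
  classical
  haveI : NeZero k := ⟨by omega⟩
  have hA : #(B → Fin k) ≤ 𝔠 := by
    rw [← Cardinal.power_def, Cardinal.mk_fin]
    refine le_trans (Cardinal.power_le_power_right (b := ((k + 2 : ℕ) : Cardinal))
      (by exact_mod_cast Nat.le_add_right k 2)) ?_
    rw [Cardinal.nat_power_eq (Cardinal.aleph0_le_mk B) (by omega)]
    exact hB
  obtain ⟨π, p, hn, hfree, hdet⟩ := Pool.Agent.H25.FreeQ.exists_free2 _ B hA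
    ((Cardinal.cantor _).le.trans hB)
  choose R hR using fun w => exists_rot (π w) (hn w)
  let v : B → E3 := fun b => WithLp.toLp 2 (p b)
  have li : ∀ b : Fin 3 → B, Injective b → LinearIndependent ℝ fun i => v (b i) := fun b hb =>
    (Matrix.linearIndependent_rows_of_det_ne_zero (hdet b hb)).map'
      (WithLp.linearEquiv 2 ℝ (Fin 3 → ℝ)).symm.toLinearMap (LinearEquiv.ker _)
  have three : ∀ b b' : B, b ≠ b' → ∃ t : Fin 3 → B, Injective t ∧ t 0 = b ∧ t 1 = b' := by
    intro b b' h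
    obtain ⟨b'', h2⟩ := Infinite.exists_notMem_finset ({b, b'} : Finset B)
    simp only [Finset.mem_insert, Finset.mem_singleton, not_or] at h2
    refine ⟨![b, b', b''], fun i j => ?_, rfl, rfl⟩
    fin_cases i <;> fin_cases j <;> simp [h, h.symm, h2.1, h2.2, Ne.symm h2.1, Ne.symm h2.2]
  have v0 : ∀ b, ‖v b‖ ≠ 0 := by
    intro b
    obtain ⟨b', h⟩ := exists_ne b
    obtain ⟨t, h1, h2, -⟩ := three b b' h.symm
    exact norm_ne_zero_iff.2 (h2 ▸ (li t h1).ne_zero 0)
  let s : B → S2 := fun b => ⟨‖v b‖⁻¹ • v b, by simp [norm_smul, v0 b]⟩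
  have vs : ∀ b, v b = ‖v b‖ • (s b : E3) := fun b => (smul_inv_smul₀ (v0 b) _).symm
  have sinj : Injective s := by
    intro b b' e
    by_contra h
    obtain ⟨t, h1, h2, h3⟩ := three b b' h
    refine (li t h1).eq_of_smul_apply_eq_smul_apply (‖v b‖⁻¹) (‖v b'‖⁻¹) 0 1
      (inv_ne_zero (v0 b)) ?_ |> fun h => absurd h (by decide)
    rw [h2, h3]
    exact congrArg Subtype.val e
  letI : MulAction (FreeGroup (B → Fin k)) S2 :=
    { smul := fun w x => act (R w) x
      one_smul := fun x => Subtype.ext (io_inj (by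
        change io (R 1 x) = _
        rw [hR]
        simp))
      mul_smul := fun a b x => Subtype.ext (io_inj (by
        change io (R (a * b) x) = io (R a (R b x))
        rw [hR, hR, hR, map_mul, mul_inv_rev, Units.val_mul, Units.val_mul]
        simp only [mul_assoc])) }
  have free : ∀ b (w : FreeGroup (B → Fin k)), w • s b = s b → w = 1 := by
    intro b w h
    have h1 : R w (s b) = s b := congrArg Subtype.val h
    have h2 : R w (v b) = v b := by rw [vs b, map_smul, h1]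
    have h3 := hR w (v b)
    rw [h2] at h3
    refine hfree w b ?_
    change (π w : ℍ[ℝ]) * io (v b) = io (v b) * π w
    exact (Units.eq_mul_inv_iff_mul_eq _).1 h3 |>.symm
  obtain ⟨c, hc⟩ := wild (X := S2)
    (fun (a : B → Fin k) x => if h : ∃ b, s b = x then a h.choose else 0) (by
      intro a x h
      by_cases h1 : ∃ b, s b = x
      · obtain ⟨b, rfl⟩ := h1
        exact free b
      · exact (h (dif_neg h1)).elim)
  refine ⟨Set.range s, Cardinal.mk_range_eq s sinj, fun g _ hg => ?_, c, fun c' h1 h2 => ?_⟩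
  · obtain ⟨b, b', h⟩ := exists_pair_ne B
    obtain ⟨t, h1, -⟩ := three b b' h
    have : g.toLinearEquiv.toLinearMap = LinearMap.id :=
      (basisOfLinearIndependentOfCardEqFinrank (li t h1) (by simp)).ext fun i => by
        have h1 : g (s (t i)) = s (t i) := congrArg Subtype.val (hg _ ⟨t i, rfl⟩)
        rw [coe_basisOfLinearIndependentOfCardEqFinrank]
        change g (v (t i)) = v (t i)
        rw [vs, map_smul, h1]
    ext1 x
    exact LinearMap.congr_fun this x
  · let a : B → Fin k := fun b => c' (s b) - c (s b)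
    have da : ∀ x, c x + (if h : ∃ b, s b = x then a h.choose else 0) = c' x := by
      intro x
      by_cases h : ∃ b, s b = x
      · rw [dif_pos h]
        simp only [a, h.choose_spec, add_sub_cancel]
      · rw [dif_neg h, add_zero, h1 x h]
    have inv : ∀ x, c' (act (R (FreeGroup.of a)) x) = c' x := fun x => by
      rw [← da, ← da]
      exact hc a x
    have := h2 _ (sq_mem (R (FreeGroup.of a))) fun x =>
      (inv (act (R (FreeGroup.of a)) x)).trans (inv x)
    have b : B := Classical.arbitrary B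
    have h3 := free b (FreeGroup.of a * FreeGroup.of a) (by
      rw [mul_smul]
      exact Subtype.ext (congrArg (fun g : O3 => g (s b)) this))
    have h4 := congrArg (FreeGroup.lift fun _ => Multiplicative.ofAdd (1 : ℤ)) h3
    simp [← ofAdd_add] at h4

theorem D_two (Γ : Set O3) (hΓ : SO3 ⊆ Γ) : 2 ≤ D Γ := by
  classical
  let p : Fin 3 → S2 := fun i => ⟨EuclideanSpace.basisFun (Fin 3) ℝ i, by simp⟩
  let e := Fintype.equivFin (Fin 3 → Bool)
  have : {k | 1 ≤ k ∧ ∃ c : S2 → Fin k, Dist Γ c}.Nonempty := by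
    refine ⟨Fintype.card (Fin 3 → Bool), Fintype.card_pos,
      fun x => e fun o => decide (x = p o), fun g _ hg => ?_⟩
    have fix : ∀ o, act g (p o) = p o := fun o => by
      have := congrFun (e.injective (hg (p o))) o
      simpa using this
    have : g.toLinearEquiv.toLinearMap = LinearMap.id :=
      (EuclideanSpace.basisFun (Fin 3) ℝ).toBasis.ext fun i => congrArg Subtype.val (fix i)
    ext1 x
    exact LinearMap.congr_fun this x
  obtain ⟨h1, c, hc⟩ := Nat.sInf_mem this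
  by_contra h
  have h2 : D Γ = 1 := by
    have : 1 ≤ D Γ := h1
    omega
  obtain ⟨W, -, -, c0, h3⟩ := fails ℕ (by simp) (D Γ) h1
  haveI : Subsingleton (Fin (D Γ)) := by rw [h2]; infer_instance
  exact h3 c (fun x _ => Subsingleton.elim _ _) fun g hg => hc g (hΓ hg)

theorem holds (Γ : Set O3) (hΓ : SO3 ⊆ Γ) (W : Set S2) (hW : #W = 𝔠) (hA : Adm Γ W) : P Γ W := by
  classical
  intro c
  haveI : Nontrivial (Fin (D Γ)) := Fin.nontrivial_iff_two_le.2 (D_two Γ hΓ)
  haveI : Nonempty S2 := ⟨⟨EuclideanSpace.basisFun (Fin 3) ℝ 0, by simp⟩⟩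
  obtain ⟨c', h1, h2⟩ := extend (G := {g : O3 // g ∈ Γ ∧ g ≠ LinearIsometryEquiv.refl ℝ E3})
    (fun g => act g.1) (fun g x y h => Subtype.ext (g.1.injective (congrArg Subtype.val h)))
    ((Cardinal.mk_subtype_le _).trans card_O3) W
    (fun g => by
      by_contra h
      push Not at h
      exact g.2.2 (hA g.1 g.2.1 h))
    (fun g h hg hh => by
      let N : Set S2 := {x | act g.1 x = x ∧ act h.1 x = x}
      have hN : N.Infinite := by
        intro hf
        have : W ⊆ N ∪ ({x | x ∈ W ∧ act g.1 x ≠ x} ∪ {x | x ∈ W ∧ act h.1 x ≠ x}) := by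
          intro x hx
          simp only [N, Set.mem_union, Set.mem_setOf_eq]
          tauto
        have un : ∀ s t : Set S2, #s < 𝔠 → #t < 𝔠 → #(s ∪ t : Set S2) < 𝔠 := fun s t h1 h2 =>
          (Cardinal.mk_union_le _ _).trans_lt (Cardinal.add_lt_of_lt aleph0_le_continuum h1 h2)
        exact ((Cardinal.mk_le_mk_of_subset this).trans_lt
          (un _ _ (hf.lt_aleph0.trans aleph0_lt_continuum) (un _ _ hg hh))).ne hW
      obtain ⟨x, hx⟩ := hN.nonempty
      obtain ⟨y, hy, hy2⟩ := hN.exists_notMem_finite (Set.toFinite {x, -x})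
      simp only [Set.mem_insert_iff, Set.mem_singleton_iff, not_or] at hy2
      exact Subtype.ext (refl_unique x y (by simp) (by simp) (fun e => hy2.1 (Subtype.ext e))
        (fun e => hy2.2 (Subtype.ext e)) g.1 h.1 (congrArg Subtype.val hx.1)
        (congrArg Subtype.val hy.1) (congrArg Subtype.val hx.2) (congrArg Subtype.val hy.2)
        g.2.2 h.2.2))
    (fun x => if h : x ∉ W then c ⟨x, h⟩ else Classical.arbitrary _)
  refine ⟨c', fun x h => (h1 x h).trans (dif_pos h), fun g hg h => ?_⟩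
  by_contra hne
  obtain ⟨x, hx⟩ := h2 ⟨g, hg, hne⟩
  exact hx (h x)

/-- For `Γ = O(3)` and for `Γ = SO(3)`: admissible sets of size continuum have the precolouring
extension property, while for every infinite `κ` with `2 ^ κ = 𝔠` some admissible set of size `κ`
fails it.  So the answer is no under CH and yes under `2 ^ ℵ₁ = 𝔠`. -/
theorem result (Γ : Set O3) (hΓ : Γ = Set.univ ∨ Γ = SO3) :
    (∀ W : Set S2, #W = 𝔠 → Adm Γ W → P Γ W) ∧
    (∀ κ : Cardinal.{0}, ℵ₀ ≤ κ → 2 ^ κ = 𝔠 → ∃ W : Set S2, #W = κ ∧ Adm Γ W ∧ ¬ P Γ W) ∧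
    ((𝔠 : Cardinal.{0}) = ℵ₁ → ∀ W : Set S2, ¬ W.Countable → Adm Γ W → P Γ W) ∧
    ((2 : Cardinal.{0}) ^ ℵ₁ = 𝔠 → ∃ W : Set S2, ¬ W.Countable ∧ Adm Γ W ∧ ¬ P Γ W) := by
  have hS : SO3 ⊆ Γ := by
    rcases hΓ with rfl | rfl
    · exact Set.subset_univ _
    · exact subset_rfl
  have two : ∀ κ : Cardinal.{0}, ℵ₀ ≤ κ → 2 ^ κ = 𝔠 →
      ∃ W : Set S2, #W = κ ∧ Adm Γ W ∧ ¬ P Γ W := by
    intro κ h1 h2
    induction κ using Cardinal.inductionOn with
    | _ B =>
      haveI : Infinite B := Cardinal.aleph0_le_mk_iff.1 h1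
      obtain ⟨W, w1, w2, c, hc⟩ := fails B h2.le (D Γ) (le_trans one_le_two (D_two Γ hS))
      refine ⟨W, w1, fun g _ => w2 g trivial, fun h => ?_⟩
      obtain ⟨c', k1, k2⟩ := h fun x => c x.1
      exact hc c' k1 fun g hg => k2 g (hS hg)
  refine ⟨holds Γ hS, two, fun ch W hW => holds Γ hS W (le_antisymm ?_ ?_), fun h => ?_⟩
  · refine (Cardinal.mk_set_le W).trans ((Cardinal.mk_subtype_le _).trans ?_)
    rw [Cardinal.mk_congr (WithLp.equiv 2 (Fin 3 → ℝ))]
    exact (card3 _ Cardinal.mk_real).le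
  · rw [ch, ← Cardinal.succ_aleph0, Order.succ_le_iff, ← not_le, Cardinal.le_aleph0_iff_set_countable]
    exact hW
  · obtain ⟨W, w1, w2⟩ := two ℵ₁ aleph0_lt_aleph_one.le h
    refine ⟨W, ?_, w2⟩
    rw [← Cardinal.le_aleph0_iff_set_countable, w1, not_le]
    exact aleph0_lt_aleph_one

end Pool.Agent.Results.MP_0be93d_co.Size
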